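import Pool.Agent.H39R2.FujNT

/-! Very ampleness of adjoint bundles on weighted hypersurfaces: geometry. -/

set_option autoImplicit false

namespace Pool.Agent.H39R2.Fuj

open MvPolynomial

variable {N : ℕ}

/-- derivative of `s` at `v` in the direction `u` -/
noncomputable def dd (v u : Fin N → ℂ) (s : MvPolynomial (Fin N) ℂ) : ℂ :=
  ∑ i, eval v (pderiv i s) * u i

theorem dd_add (v u : Fin N → ℂ) (s t : MvPolynomial (Fin N) ℂ) :
    dd v u (s + t) = dd v u s + dd v u t := by
  simp only [dd, map_add, add_mul, Finset.sum_add_distrib]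

theorem dd_sub (v u : Fin N → ℂ) (s t : MvPolynomial (Fin N) ℂ) :
    dd v u (s - t) = dd v u s - dd v u t := by
  simp only [dd, map_sub, sub_mul, Finset.sum_sub_distrib]

theorem dd_mul (v u : Fin N → ℂ) (s t : MvPolynomial (Fin N) ℂ) :
    dd v u (s * t) = eval v s * dd v u t + eval v t * dd v u s := by
  simp only [dd, Derivation.leibniz, smul_eq_mul, map_add, map_mul, add_mul, Finset.sum_add_distrib,
    Finset.mul_sum]
  congr 1 <;> exact Finset.sum_congr rfl (fun i _ => by ring)

theorem dd_C (v u : Fin N → ℂ) (c : ℂ) : dd v u (C c) = 0 := by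
  simp [dd]

theorem dd_X (v u : Fin N → ℂ) (i : Fin N) : dd v u (X i) = u i := by
  classical
  rw [dd, Finset.sum_eq_single i]
  · simp
  · intro j _ hj
    rw [pderiv_X_of_ne hj.symm]; simp
  · intro h; exact absurd (Finset.mem_univ i) h

theorem dd_pow (v u : Fin N → ℂ) (s : MvPolynomial (Fin N) ℂ) (n : ℕ) :
    dd v u (s ^ n) = n * eval v s ^ (n - 1) * dd v u s := by
  induction n with
  | zero =>
    have : (1 : MvPolynomial (Fin N) ℂ) = C 1 := by simp
    simp only [pow_zero]
    rw [this, dd_C]; simp
  | succ n ih =>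
    rw [pow_succ, dd_mul, ih]
    rcases Nat.eq_zero_or_pos n with h | h
    · subst h; simp
    · obtain ⟨m, rfl⟩ : ∃ m, n = m + 1 := ⟨n - 1, by omega⟩
      simp only [Nat.add_sub_cancel, map_pow]
      push_cast
      ring

theorem dd_smul (v u : Fin N → ℂ) (c : ℂ) (s : MvPolynomial (Fin N) ℂ) :
    dd v u (C c * s) = c * dd v u s := by
  rw [dd_mul, dd_C]; simp

theorem dd_sub_dir (v u u' : Fin N → ℂ) (s : MvPolynomial (Fin N) ℂ) :
    dd v (fun i => u i - u' i) s = dd v u s - dd v u' s := by
  simp only [dd, mul_sub, Finset.sum_sub_distrib]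

theorem dd_smul_dir (v u : Fin N → ℂ) (c : ℂ) (s : MvPolynomial (Fin N) ℂ) :
    dd v (fun i => c * u i) s = c * dd v u s := by
  simp only [dd, Finset.mul_sum]
  exact Finset.sum_congr rfl (fun i _ => by ring)

variable (a : Fin N → ℕ)

/-- Euler's formula -/
theorem dd_euler (v : Fin N → ℂ) {s : MvPolynomial (Fin N) ℂ} {e : ℕ}
    (hs : IsWeightedHomogeneous a s e) : dd v (fun i => a i * v i) s = e * eval v s := by
  have h := hs.sum_weight_X_mul_pderiv
  have h1 := congrArg (eval v) h
  rw [map_sum] at h1
  rw [dd]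
  have h2 : eval v (e • s) = e * eval v s := by rw [nsmul_eq_mul, map_mul]; simp
  rw [h2] at h1
  rw [← h1]
  refine Finset.sum_congr rfl (fun i _ => ?_)
  rw [nsmul_eq_mul, map_mul, map_mul, eval_X]
  simp only [map_natCast]
  ring

theorem eval_scale (v : Fin N → ℂ) (t : ℂ) {s : MvPolynomial (Fin N) ℂ} {e : ℕ}
    (hs : IsWeightedHomogeneous a s e) :
    eval (fun i => t ^ a i * v i) s = t ^ e * eval v s := by
  rw [eval_eq', eval_eq', Finset.mul_sum]
  refine Finset.sum_congr rfl (fun m hm => ?_)
  have hw := hs (mem_support_iff.mp hm)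
  rw [Finsupp.weight_apply, Finsupp.sum_fintype _ _ (by simp)] at hw
  have h1 : ∏ i, (t ^ a i * v i) ^ m i = t ^ e * ∏ i, v i ^ m i := by
    simp only [mul_pow, Finset.prod_mul_distrib]
    congr 1
    rw [← hw, ← Finset.prod_pow_eq_pow_sum]
    refine Finset.prod_congr rfl (fun i _ => ?_)
    rw [← pow_mul, smul_eq_mul, mul_comm]
  rw [h1]; ring

section setup

variable (d : ℕ) (f : MvPolynomial (Fin N) ℂ)
  (hgcd : ∀ v : Fin N → ℂ, v ≠ 0 → eval v f = 0 → ∀ g : ℕ, (∀ i, v i ≠ 0 → g ∣ a i) → g = 1)

include hgcd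

theorem eval_single_ne (i : Fin N) (hi : 2 ≤ a i) : eval (Pi.single i (1 : ℂ)) f ≠ 0 := by
  classical
  intro h
  have h1 := hgcd (Pi.single i 1) (by
    intro h0
    have := congrFun h0 i
    simp at this) h (a i) (by
    intro j hj
    have : j = i := by
      by_contra hne
      exact hj (Pi.single_eq_of_ne hne 1)
    rw [this])
  omega

theorem exists_pure (hf : IsWeightedHomogeneous a f d) (i : Fin N) (hi : 2 ≤ a i) :
    ∃ k : ℕ, coeff (Finsupp.single i k) f ≠ 0 ∧ k * a i = d := by
  classical
  have h := eval_single_ne a f hgcd i hi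
  rw [eval_eq'] at h
  obtain ⟨m, hm, hne⟩ := Finset.exists_ne_zero_of_sum_ne_zero h
  have hprod : ∏ j, (Pi.single i (1 : ℂ) : Fin N → ℂ) j ^ m j ≠ 0 := right_ne_zero_of_mul hne
  rw [Finset.prod_ne_zero_iff] at hprod
  have hm0 : ∀ j, j ≠ i → m j = 0 := by
    intro j hj
    by_contra h0
    exact hprod j (Finset.mem_univ j) (by rw [Pi.single_eq_of_ne hj, zero_pow h0])
  have hmi : m = Finsupp.single i (m i) := by
    ext j
    by_cases hj : j = i
    · subst hj; simp
    · rw [hm0 j hj, Finsupp.single_eq_of_ne hj]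
  refine ⟨m i, ?_, ?_⟩
  · rw [← hmi]; exact mem_support_iff.mp hm
  · have hw := hf (mem_support_iff.mp hm)
    rw [hmi, Finsupp.weight_apply, Finsupp.sum_single_index (by simp)] at hw
    simpa [smul_eq_mul] using hw

theorem dvd_all (hf : IsWeightedHomogeneous a f d) (ha : ∀ i, 0 < a i) (i : Fin N) : a i ∣ d := by
  by_cases hi : 2 ≤ a i
  · obtain ⟨k, -, hk⟩ := exists_pure a d f hgcd hf i hi
    exact ⟨k, by rw [mul_comm]; exact hk.symm⟩
  · have : a i = 1 := by have := ha i; omega
    rw [this]; exact one_dvd _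

theorem coprime_all (hf : IsWeightedHomogeneous a f d) (hd : 0 < d) (ha : ∀ i, 0 < a i)
    (i j : Fin N) (hij : i ≠ j) : Nat.Coprime (a i) (a j) := by
  classical
  -- a zero of `f` supported on `{i, j}`
  have key : ∃ v : Fin N → ℂ, v ≠ 0 ∧ eval v f = 0 ∧ ∀ l, v l ≠ 0 → l = i ∨ l = j := by
    by_cases hfi : eval (Pi.single i (1 : ℂ)) f = 0
    · refine ⟨Pi.single i 1, ?_, hfi, ?_⟩
      · intro h0
        have := congrFun h0 i
        simp at this
      · intro l hl
        left
        by_contra hne
        exact hl (Pi.single_eq_of_ne hne 1)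
    -- the polynomial `t ↦ f (t e_i + e_j)`
    let w : ℂ → Fin N → ℂ := fun t l => if l = i then t else if l = j then 1 else 0
    have hw0 : ∀ t, w t ≠ 0 := by
      intro t h0
      have := congrFun h0 j
      simp [w, hij.symm] at this
    have hwl : ∀ t l, w t l ≠ 0 → l = i ∨ l = j := by
      intro t l hl
      by_contra hcon
      push Not at hcon
      exact hl (by simp [w, hcon.1, hcon.2])
    by_contra hno
    push Not at hno
    have hnz : ∀ t, eval (w t) f ≠ 0 := by
      intro t h0
      obtain ⟨l, hl, hl2⟩ := hno (w t) (hw0 t) h0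
      rcases hwl t l hl with h | h
      · exact hl2.1 h
      · exact hl2.2 h
    let h : Polynomial ℂ := aeval (fun l => if l = i then Polynomial.X else if l = j then 1 else 0) f
    have hh : ∀ t, h.eval t = eval (w t) f := by
      intro t
      have h1 : h.eval t = (Polynomial.aeval t : Polynomial ℂ →ₐ[ℂ] ℂ) h := by
        rw [Polynomial.coe_aeval_eq_eval]
      rw [h1]
      show (Polynomial.aeval t) (aeval _ f) = _
      rw [← AlgHom.comp_apply, comp_aeval]
      rw [← aeval_eq_eval]
      have h2 : (fun l => (Polynomial.aeval t : Polynomial ℂ →ₐ[ℂ] ℂ)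
          (if l = i then Polynomial.X else if l = j then 1 else 0)) = w t := by
        funext l
        simp only [w]
        split_ifs <;> simp
      rw [h2]
    have hdeg : h.degree ≤ 0 := by
      by_contra hcon
      push Not at hcon
      obtain ⟨t, ht⟩ := IsAlgClosed.exists_root h hcon.ne'
      exact hnz t (by rw [← hh]; exact ht)
    have hconst : ∀ t, eval (w t) f = eval (w 0) f := by
      intro t
      rw [← hh, ← hh, Polynomial.eq_C_of_degree_le_zero hdeg]; simp
    -- scaling
    set c := eval (w 0) f with hc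
    have hscale : ∀ s : ℂ, s ≠ 0 →
        eval (fun l => if l = i then 1 else if l = j then s ^ a j else 0) f = s ^ d * c := by
      intro s hs
      have h1 := eval_scale a (w (s⁻¹ ^ a i)) s hf
      rw [hconst] at h1
      rw [← h1]
      congr 2
      funext l
      simp only [w]
      split_ifs with h2 h3
      · subst h2
        rw [← mul_pow, mul_inv_cancel₀ hs, one_pow]
      · subst h3; rw [mul_one]
      · rw [mul_zero]
    have hcont : Continuous (fun s : ℂ =>
        eval (fun l => if l = i then 1 else if l = j then s ^ a j else 0) f) := by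
      apply (MvPolynomial.continuous_eval f).comp
      apply continuous_pi
      intro l
      split_ifs
      · exact continuous_const
      · exact continuous_pow _
      · exact continuous_const
    have hcont2 : Continuous (fun s : ℂ => s ^ d * c) := by fun_prop
    have heq : (fun s : ℂ => eval (fun l => if l = i then 1 else if l = j then s ^ a j else 0) f)
        = fun s : ℂ => s ^ d * c := by
      apply Continuous.ext_on (s := {0}ᶜ) (dense_compl_singleton 0) hcont hcont2
      intro s hs
      exact hscale s hs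
    have h0 := congrFun heq 0
    rw [zero_pow hd.ne', zero_mul] at h0
    apply hfi
    rw [← h0]
    congr 2
    funext l
    by_cases hl : l = i
    · subst hl; simp
    · rw [Pi.single_eq_of_ne hl, if_neg hl]
      split_ifs
      · rw [zero_pow (ha j).ne']
      · rfl
  obtain ⟨v, hv0, hv, hsupp⟩ := key
  apply hgcd v hv0 hv
  intro l hl
  rcases hsupp l hl with h | h
  · subst h; exact Nat.gcd_dvd_left _ _
  · subst h; exact Nat.gcd_dvd_right _ _

end setup

end Pool.Agent.H39R2.Fuj
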