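import Pool.Agent.H39R2.FujGeo

/-! Very ampleness of adjoint bundles on weighted hypersurfaces: main proofs. -/

set_option autoImplicit false

namespace Pool.Agent.H39R2.Fuj

open MvPolynomial

variable {N : ℕ} (a : Fin N → ℕ)

theorem hom_pow (i : Fin N) (x : ℕ) : IsWeightedHomogeneous a (X i ^ x : MvPolynomial (Fin N) ℂ)
    (x * a i) := by
  have := (isWeightedHomogeneous_X ℂ a i).pow x
  rwa [smul_eq_mul] at this

theorem hom_two (i j : Fin N) (x y : ℕ) :
    IsWeightedHomogeneous a (X i ^ x * X j ^ y : MvPolynomial (Fin N) ℂ) (x * a i + y * a j) :=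
  (hom_pow a i x).mul (hom_pow a j y)

theorem hom_three (i j l : Fin N) (x y : ℕ) :
    IsWeightedHomogeneous a (X l * (X i ^ x * X j ^ y) : MvPolynomial (Fin N) ℂ)
      (a l + (x * a i + y * a j)) :=
  (isWeightedHomogeneous_X ℂ a l).mul (hom_two a i j x y)

theorem hom_one (i l : Fin N) (x : ℕ) :
    IsWeightedHomogeneous a (X l * X i ^ x : MvPolynomial (Fin N) ℂ) (a l + x * a i) :=
  (isWeightedHomogeneous_X ℂ a l).mul (hom_pow a i x)

/-- the standing assumptions -/
structure Setup (a : Fin N → ℕ) (d e : ℕ) (f : MvPolynomial (Fin N) ℂ) : Prop where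
  ha : ∀ i, 0 < a i
  hd : 0 < d
  hN : 0 < N
  hf : IsWeightedHomogeneous a f d
  hgcd : ∀ v : Fin N → ℂ, v ≠ 0 → eval v f = 0 → ∀ g : ℕ, (∀ i, v i ≠ 0 → g ∣ a i) → g = 1
  hE : d ≤ e + ∑ l, (a l - 1)

variable {a} {d e : ℕ} {f : MvPolynomial (Fin N) ℂ} (S : Setup a d e f)

include S

theorem Setup.cop (i j : Fin N) (hij : i ≠ j) : Nat.Coprime (a i) (a j) :=
  coprime_all a d f S.hgcd S.hf S.hd S.ha i j hij

theorem Setup.dvd (i : Fin N) : a i ∣ d := dvd_all a d f S.hgcd S.hf S.ha i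

theorem Setup.epos : 1 ≤ e := e_pos a S.ha d e S.hd S.cop S.dvd S.hE S.hN

/-- two nonzero coordinates if no coordinate of weight one is nonzero -/
theorem Setup.two (v : Fin N → ℂ) (hv : v ≠ 0) (hfv : eval v f = 0)
    (h1 : ∀ i, v i ≠ 0 → a i ≠ 1) : ∃ i j, i ≠ j ∧ v i ≠ 0 ∧ v j ≠ 0 ∧ 2 ≤ a i ∧ 2 ≤ a j := by
  obtain ⟨i, hi⟩ : ∃ i, v i ≠ 0 := by
    by_contra hcon
    push Not at hcon
    exact hv (funext hcon)
  have hi2 : 2 ≤ a i := by have := S.ha i; have := h1 i hi; omega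
  by_contra hcon
  push Not at hcon
  have h2 := S.hgcd v hv hfv (a i) (by
    intro l hl
    by_cases hli : l = i
    · rw [hli]
    · have h3 := hcon i l (Ne.symm hli) hi hl hi2
      have h4 := h1 l hl
      have h5 := S.ha l
      omega)
  omega

theorem Setup.bpf (v : Fin N → ℂ) (hv : v ≠ 0) (hfv : eval v f = 0) :
    ∃ s : MvPolynomial (Fin N) ℂ, IsWeightedHomogeneous a s e ∧ eval v s ≠ 0 := by
  by_cases hA : ∃ i, v i ≠ 0 ∧ a i = 1
  · obtain ⟨i, hi, hai⟩ := hA
    refine ⟨X i ^ e, ?_, ?_⟩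
    · have := hom_pow a i e
      rwa [hai, mul_one] at this
    · rw [map_pow, eval_X]; exact pow_ne_zero _ hi
  · push Not at hA
    obtain ⟨i, j, hij, hi, hj, hai, haj⟩ := S.two v hv hfv hA
    obtain ⟨x, y, hxy⟩ := rep (S.cop i j hij)
      (nt_b2 a S.ha d e S.hd S.cop S.dvd S.hE i j hij hai haj)
    refine ⟨X i ^ x * X j ^ y, ?_, ?_⟩
    · have := hom_two a i j x y
      rwa [show x * a i + y * a j = e by rw [← hxy]; ring] at this
    · rw [map_mul, map_pow, map_pow, eval_X, eval_X]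
      exact mul_ne_zero (pow_ne_zero _ hi) (pow_ne_zero _ hj)

/-- expansion of `f` when `d = a l` and all other weights are one -/
theorem Setup.lin (l : Fin N) (hdl : d = a l) (hl2 : 2 ≤ a l) (hone : ∀ j, j ≠ l → a j = 1) :
    ∃ (c : ℂ) (g : MvPolynomial (Fin N) ℂ), c ≠ 0 ∧ f = C c * X l + g ∧ ∀ m ∈ g.support, m l = 0 := by
  classical
  obtain ⟨k, hk, hka⟩ := exists_pure a d f S.hgcd S.hf l hl2
  have hk1 : k = 1 := by
    have h1 : k * a l = 1 * a l := by rw [hka, one_mul]; exact hdl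
    exact Nat.eq_of_mul_eq_mul_right (S.ha l) h1
  subst hk1
  refine ⟨coeff (Finsupp.single l 1) f, f - C (coeff (Finsupp.single l 1) f) * X l, hk, by ring, ?_⟩
  intro m hm
  by_contra hml
  rw [mem_support_iff, coeff_sub, coeff_C_mul, coeff_X'] at hm
  have hmf : coeff m f ≠ 0 := by
    intro h0
    rw [h0] at hm
    by_cases h1 : Finsupp.single l 1 = m
    · rw [if_pos h1] at hm
      rw [h1, h0] at hk
      exact hk rfl
    · rw [if_neg h1] at hm; simp at hm
  have hw := S.hf hmf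
  rw [Finsupp.weight_apply, Finsupp.sum_fintype _ _ (by simp)] at hw
  have h2 : ∑ j, m j • a j = m l * a l + ∑ j ∈ Finset.univ.erase l, m j * a j := by
    rw [← Finset.add_sum_erase _ _ (Finset.mem_univ l)]
    simp only [smul_eq_mul]
  rw [h2, hdl] at hw
  have h3 : 1 * a l ≤ m l * a l := Nat.mul_le_mul_right _ (Nat.one_le_iff_ne_zero.mpr hml)
  have h4 : ∑ j ∈ Finset.univ.erase l, m j * a j = 0 := by omega
  have h5 : m l = 1 := by
    have h6 : m l * a l = 1 * a l := by omega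
    exact Nat.eq_of_mul_eq_mul_right (S.ha l) h6
  have h6 : Finsupp.single l 1 = m := by
    ext j
    by_cases hj : j = l
    · subst hj; simp [h5]
    · rw [Finsupp.single_eq_of_ne hj]
      have h7 := (Finset.sum_eq_zero_iff.mp h4) j (Finset.mem_erase.mpr ⟨hj, Finset.mem_univ j⟩)
      rcases Nat.mul_eq_zero.mp h7 with h8 | h8
      · exact h8.symm
      · exact absurd h8 (S.ha j).ne'
  rw [if_pos h6, ← h6] at hm
  simp at hm

/-- expansion of `f` when `d = a i * a j` -/
theorem Setup.bin (i j : Fin N) (hij : i ≠ j) (hdl : d = a i * a j) (hi2 : 2 ≤ a i)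
    (hj2 : 2 ≤ a j) :
    ∃ (c c' : ℂ) (g : MvPolynomial (Fin N) ℂ), c ≠ 0 ∧ c' ≠ 0 ∧
      f = C c * X i ^ a j + C c' * X j ^ a i + g ∧
      g ∈ Ideal.span ((X : Fin N → MvPolynomial (Fin N) ℂ) '' {l | l ≠ i ∧ l ≠ j}) := by
  classical
  obtain ⟨k, hk, hka⟩ := exists_pure a d f S.hgcd S.hf i hi2
  obtain ⟨k', hk', hka'⟩ := exists_pure a d f S.hgcd S.hf j hj2
  have hk1 : k = a j := by
    have h1 : k * a i = a j * a i := by rw [hka, hdl, mul_comm]
    exact Nat.eq_of_mul_eq_mul_right (S.ha i) h1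
  have hk1' : k' = a i := by
    have h1 : k' * a j = a i * a j := by rw [hka', hdl]
    exact Nat.eq_of_mul_eq_mul_right (S.ha j) h1
  subst hk1
  subst hk1'
  set c := coeff (Finsupp.single i (a j)) f with hc
  set c' := coeff (Finsupp.single j (a i)) f with hc'
  refine ⟨c, c', f - C c * X i ^ a j - C c' * X j ^ a i, hk, hk', by ring, ?_⟩
  rw [mem_ideal_span_X_image]
  intro m hm
  by_contra hcon
  push Not at hcon
  have hm0 : ∀ l, l ≠ i → l ≠ j → m l = 0 := fun l h1 h2 => hcon l ⟨h1, h2⟩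
  have hne : Finsupp.single i (a j) ≠ Finsupp.single j (a i) := by
    intro h
    have h1 := DFunLike.congr_fun h i
    rw [Finsupp.single_eq_same, Finsupp.single_eq_of_ne hij] at h1
    omega
  rw [mem_support_iff, coeff_sub, coeff_sub, coeff_C_mul, coeff_C_mul, coeff_X_pow,
    coeff_X_pow] at hm
  by_cases h1 : Finsupp.single i (a j) = m
  · rw [if_pos h1, if_neg (fun h => hne (h1.trans h.symm)), ← h1] at hm
    simp [hc] at hm
  by_cases h2 : Finsupp.single j (a i) = m
  · rw [if_pos h2, if_neg h1, ← h2] at hm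
    simp [hc'] at hm
  rw [if_neg h1, if_neg h2] at hm
  simp only [mul_zero, sub_zero] at hm
  have hw := S.hf hm
  rw [Finsupp.weight_apply, Finsupp.sum_fintype _ _ (by simp)] at hw
  have h3 : ∑ l, m l • a l = m i * a i + m j * a j := by
    rw [← Finset.add_sum_erase _ _ (Finset.mem_univ i)]
    have hj : j ∈ Finset.univ.erase i := Finset.mem_erase.mpr ⟨hij.symm, Finset.mem_univ j⟩
    rw [← Finset.add_sum_erase _ _ hj, Finset.sum_eq_zero]
    · simp [smul_eq_mul]
    · intro l hl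
      rw [Finset.mem_erase, Finset.mem_erase] at hl
      rw [hm0 l hl.2.1 hl.1, zero_smul]
  rw [h3, hdl] at hw
  have hcop := S.cop i j hij
  -- `a j ∣ m i`
  have h4 : a j ∣ m i := by
    have h5 : a j ∣ m i * a i := by
      have h6 : a j ∣ m i * a i + m j * a j := by rw [hw]; exact Nat.dvd_mul_left _ _
      exact (Nat.dvd_add_left (Nat.dvd_mul_left _ _)).mp h6
    exact hcop.symm.dvd_of_dvd_mul_right h5
  obtain ⟨z, hz⟩ := h4
  have hz1 : z ≤ 1 := by
    by_contra hcon2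
    have h5 : 2 ≤ z := by omega
    have h6 : a j * 2 * a i ≤ a j * z * a i := Nat.mul_le_mul_right _ (Nat.mul_le_mul_left _ h5)
    rw [hz] at hw
    have h7 : 0 < a i * a j := Nat.mul_pos (S.ha i) (S.ha j)
    nlinarith
  interval_cases z
  · rw [mul_zero] at hz
    rw [hz, zero_mul, zero_add] at hw
    have h5 : m j = a i := Nat.eq_of_mul_eq_mul_right (S.ha j) hw
    apply h2
    ext l
    by_cases hl : l = j
    · subst hl; rw [Finsupp.single_eq_same, h5]
    · rw [Finsupp.single_eq_of_ne hl]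
      by_cases hl2 : l = i
      · subst hl2; exact hz.symm
      · exact (hm0 l hl2 hl).symm
  · rw [mul_one] at hz
    rw [hz] at hw
    have h5 : m j * a j = 0 := by
      have : a j * a i = a i * a j := mul_comm _ _
      omega
    have h6 : m j = 0 := by
      rcases Nat.mul_eq_zero.mp h5 with h | h
      · exact h
      · exact absurd h (S.ha j).ne'
    apply h1
    ext l
    by_cases hl : l = i
    · subst hl; rw [Finsupp.single_eq_same, hz]
    · rw [Finsupp.single_eq_of_ne hl]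
      by_cases hl2 : l = j
      · subst hl2; exact h6.symm
      · exact (hm0 l hl hl2).symm

omit S in
theorem dd_span (v u : Fin N → ℂ) (T : Set (Fin N)) (hv : ∀ l ∈ T, v l = 0)
    (g : MvPolynomial (Fin N) ℂ)
    (hg : g ∈ Ideal.span ((X : Fin N → MvPolynomial (Fin N) ℂ) '' T)) :
    eval v g = 0 ∧ ((∀ l ∈ T, u l = 0) → dd v u g = 0) := by
  refine Submodule.span_induction (p := fun g _ => eval v g = 0 ∧
    ((∀ l ∈ T, u l = 0) → dd v u g = 0)) ?_ ?_ ?_ ?_ hg
  · rintro _ ⟨l, hl, rfl⟩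
    exact ⟨by rw [eval_X]; exact hv l hl, fun hu => by rw [dd_X]; exact hu l hl⟩
  · exact ⟨by simp, fun _ => by simp [dd]⟩
  · rintro x y _ _ ⟨hx, hx'⟩ ⟨hy, hy'⟩
    exact ⟨by rw [map_add, hx, hy, add_zero], fun hu => by rw [dd_add, hx' hu, hy' hu, add_zero]⟩
  · rintro r x _ ⟨hx, hx'⟩
    exact ⟨by rw [smul_eq_mul, map_mul, hx, mul_zero],
      fun hu => by rw [smul_eq_mul, dd_mul, hx' hu, hx, mul_zero, zero_mul, add_zero]⟩

end Pool.Agent.H39R2.Fuj
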