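import Mathlib

/-! Number theory for the very ampleness of adjoint bundles on weighted hypersurfaces. -/

set_option autoImplicit false

namespace Pool.Agent.H39R2.Fuj

open Finset

theorem sum_pred_add_one_le_prod {ι : Type} (s : Finset ι) (a : ι → ℕ) (ha : ∀ i ∈ s, 0 < a i) :
    ∑ i ∈ s, (a i - 1) + 1 ≤ ∏ i ∈ s, a i := by
  classical
  induction s using Finset.induction_on with
  | empty => simp
  | insert i s hi ih =>
    rw [Finset.sum_insert hi, Finset.prod_insert hi]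
    have h1 := ih (fun j hj => ha j (Finset.mem_insert_of_mem hj))
    have h2 := ha i (Finset.mem_insert_self i s)
    set S := ∑ i ∈ s, (a i - 1)
    set P := ∏ i ∈ s, a i
    obtain ⟨b, hb⟩ : ∃ b, a i = b + 1 := ⟨a i - 1, by omega⟩
    rw [hb]
    have h3 : 1 ≤ P := by omega
    have h4 : b * 1 ≤ b * P := Nat.mul_le_mul_left b h3
    have h5 : (b + 1) * P = b * P + P := by ring
    omega

theorem prod_dvd {ι : Type} (s : Finset ι) (a : ι → ℕ) (d : ℕ)
    (hc : ∀ i ∈ s, ∀ j ∈ s, i ≠ j → Nat.Coprime (a i) (a j)) (hd : ∀ i ∈ s, a i ∣ d) :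
    ∏ i ∈ s, a i ∣ d := by
  classical
  induction s using Finset.induction_on with
  | empty => simp
  | insert i s hi ih =>
    rw [Finset.prod_insert hi]
    apply Nat.Coprime.mul_dvd_of_dvd_of_dvd
    · apply Nat.Coprime.prod_right
      intro j hj
      exact hc i (Finset.mem_insert_self i s) j (Finset.mem_insert_of_mem hj)
        (fun h => hi (h ▸ hj))
    · exact hd i (Finset.mem_insert_self i s)
    · exact ih (fun j hj l hl => hc j (Finset.mem_insert_of_mem hj) l (Finset.mem_insert_of_mem hl))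
        (fun j hj => hd j (Finset.mem_insert_of_mem hj))

theorem le_of_prod {ι : Type} (s : Finset ι) (a : ι → ℕ) (ha : ∀ i ∈ s, 0 < a i) {l : ι}
    (hl : l ∈ s) : a l ≤ ∏ i ∈ s, a i :=
  Nat.le_of_dvd (Finset.prod_pos ha) (Finset.dvd_prod_of_mem a hl)

theorem rep {p q t : ℕ} (h : Nat.Coprime p q) (ht : (p - 1) * (q - 1) ≤ t) :
    ∃ x y : ℕ, p * x + q * y = t := by
  obtain ⟨x, y, hxy⟩ := Nat.exists_add_mul_eq_of_gcd_dvd_of_mul_pred_le p q t
    (by rw [h.gcd_eq_one]; exact one_dvd _) ht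
  exact ⟨x, y, by rw [mul_comm p, mul_comm q]; exact hxy⟩

variable {N : ℕ} (a : Fin N → ℕ) (ha : ∀ i, 0 < a i) (d e : ℕ) (hd : 0 < d)
  (hc : ∀ i j, i ≠ j → Nat.Coprime (a i) (a j)) (hdvd : ∀ i, a i ∣ d)
  (hE : d ≤ e + ∑ l, (a l - 1))

include ha hd hc hdvd hE

theorem setup1 (i : Fin N) : ∃ m C : ℕ, 1 ≤ m ∧ 1 ≤ C ∧ d = m * (a i * C) ∧
    d + 1 ≤ e + (a i - 1) + C ∧ (m * C = 1 → ∀ l, l ≠ i → a l = 1) := by
  classical
  have hdvd' : ∏ l, a l ∣ d := prod_dvd Finset.univ a d (fun i _ j _ => hc i j) (fun i _ => hdvd i)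
  have h1 : ∏ l, a l = a i * ∏ l ∈ Finset.univ.erase i, a l :=
    (Finset.mul_prod_erase _ _ (Finset.mem_univ i)).symm
  have h2 : ∑ l, (a l - 1) = (a i - 1) + ∑ l ∈ Finset.univ.erase i, (a l - 1) :=
    (Finset.add_sum_erase _ _ (Finset.mem_univ i)).symm
  have h3 := sum_pred_add_one_le_prod (Finset.univ.erase i) a (fun l _ => ha l)
  obtain ⟨m, hm⟩ := hdvd'
  refine ⟨m, ∏ l ∈ Finset.univ.erase i, a l, ?_, ?_, ?_, ?_, ?_⟩
  · rcases Nat.eq_zero_or_pos m with h | h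
    · rw [h, mul_zero] at hm; omega
    · exact h
  · exact Finset.prod_pos (fun l _ => ha l)
  · rw [← h1, mul_comm, ← hm]
  · omega
  · intro hmC l hl
    have h4 : ∏ l ∈ Finset.univ.erase i, a l = 1 := by
      exact Nat.eq_one_of_mul_eq_one_left hmC
    have h5 := le_of_prod (Finset.univ.erase i) a (fun l _ => ha l)
      (Finset.mem_erase.mpr ⟨hl, Finset.mem_univ l⟩)
    have := ha l
    omega

theorem setup2 (i j : Fin N) (hij : i ≠ j) : ∃ m C : ℕ, 1 ≤ m ∧ 1 ≤ C ∧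
    d = m * (a i * a j * C) ∧ d + 1 ≤ e + (a i - 1) + (a j - 1) + C ∧
    (∀ l, l ≠ i → l ≠ j → a l ≤ C) := by
  classical
  have hdvd' : ∏ l, a l ∣ d := prod_dvd Finset.univ a d (fun i _ j _ => hc i j) (fun i _ => hdvd i)
  have hj : j ∈ Finset.univ.erase i := Finset.mem_erase.mpr ⟨hij.symm, Finset.mem_univ j⟩
  have h1 : ∏ l, a l = a i * (a j * ∏ l ∈ (Finset.univ.erase i).erase j, a l) := by
    rw [Finset.mul_prod_erase _ _ hj, Finset.mul_prod_erase _ _ (Finset.mem_univ i)]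
  have h2 : ∑ l, (a l - 1) = (a i - 1) + ((a j - 1) +
      ∑ l ∈ (Finset.univ.erase i).erase j, (a l - 1)) := by
    rw [Finset.add_sum_erase _ (fun l => a l - 1) hj,
      Finset.add_sum_erase _ (fun l => a l - 1) (Finset.mem_univ i)]
  have h3 := sum_pred_add_one_le_prod ((Finset.univ.erase i).erase j) a (fun l _ => ha l)
  obtain ⟨m, hm⟩ := hdvd'
  refine ⟨m, ∏ l ∈ (Finset.univ.erase i).erase j, a l, ?_, ?_, ?_, ?_, ?_⟩
  · rcases Nat.eq_zero_or_pos m with h | h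
    · rw [h, mul_zero] at hm; omega
    · exact h
  · exact Finset.prod_pos (fun l _ => ha l)
  · rw [hm, h1]; ring
  · omega
  · intro l hli hlj
    exact le_of_prod ((Finset.univ.erase i).erase j) a (fun l _ => ha l)
      (Finset.mem_erase.mpr ⟨hlj, Finset.mem_erase.mpr ⟨hli, Finset.mem_univ l⟩⟩)

/-- either `a l ≤ e` or `d = a l` and all other weights are `1` -/
theorem nt_a (l : Fin N) : a l ≤ e ∨ (d = a l ∧ ∀ j, j ≠ l → a j = 1) := by
  obtain ⟨m, C, hm, hC, hdm, hle, hone⟩ := setup1 a ha d e hd hc hdvd hE l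
  by_cases hmC : m * C = 1
  · by_cases h1 : a l ≤ e
    · exact Or.inl h1
    · right
      refine ⟨?_, hone hmC⟩
      rw [hdm, ← mul_assoc, mul_comm m, mul_assoc, hmC, mul_one]
  · left
    have hp := ha l
    have hmC2 : 2 ≤ m * C := by
      have : 1 ≤ m * C := Nat.mul_pos hm hC
      omega
    obtain ⟨p, hp'⟩ : ∃ p, a l = p + 1 := ⟨a l - 1, by omega⟩
    rw [hp'] at hdm hle ⊢
    have hle' : d + 1 ≤ e + p + C := by omega
    by_cases hp0 : p = 0
    · subst hp0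
      have h1 : d = m * C := by rw [hdm]; ring
      have h2 : C ≤ m * C := Nat.le_mul_of_pos_left C hm
      omega
    · have h1 : 1 ≤ p := by omega
      have h2 : C ≤ m * C := Nat.le_mul_of_pos_left C hm
      have h3 : d = (p + 1) * (m * C) := by rw [hdm]; ring
      -- want p + 1 ≤ e
      have h4 : (p + 1) * (m * C) + 1 ≤ e + p + C := by rw [← h3]; exact hle'
      nlinarith [Nat.mul_le_mul h1 hmC2]

theorem e_pos (hN : 0 < N) : 1 ≤ e := by
  rcases nt_a a ha d e hd hc hdvd hE ⟨0, hN⟩ with h | ⟨h, h'⟩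
  · have := ha ⟨0, hN⟩
    omega
  · by_contra hcon
    have he : e = 0 := by omega
    have h1 : ∑ l, (a l - 1) = a ⟨0, hN⟩ - 1 := by
      rw [Finset.sum_eq_single (⟨0, hN⟩ : Fin N)]
      · intro b _ hb
        rw [h' b hb, Nat.sub_self]
      · intro hh; exact absurd (Finset.mem_univ _) hh
    have := ha ⟨0, hN⟩
    omega

theorem nt_b1 (i j : Fin N) (hij : i ≠ j) (hi : 2 ≤ a i) (hj : 2 ≤ a j) (l : Fin N) (hli : l ≠ i)
    (hlj : l ≠ j) : a l + (a i - 1) * (a j - 1) ≤ e := by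
  obtain ⟨m, C, hm, hC, hdm, hle, hlC⟩ := setup2 a ha d e hd hc hdvd hE i j hij
  have h1 := hlC l hli hlj
  obtain ⟨p, hp⟩ : ∃ p, a i = p + 2 := ⟨a i - 2, by omega⟩
  obtain ⟨q, hq⟩ : ∃ q, a j = q + 2 := ⟨a j - 2, by omega⟩
  rw [hp, hq] at hdm hle ⊢
  have e1 : p + 2 - 1 = p + 1 := by omega
  have e2 : q + 2 - 1 = q + 1 := by omega
  rw [e1, e2] at hle ⊢
  have h2 : (p + 2) * (q + 2) * C ≤ d := by
    rw [hdm]; exact Nat.le_mul_of_pos_left _ hm
  obtain ⟨c, hc'⟩ : ∃ c, C = c + 1 := ⟨C - 1, by omega⟩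
  rw [hc'] at h2 hle h1
  nlinarith [Nat.zero_le (p * q * c), Nat.zero_le (p * c), Nat.zero_le (q * c)]

theorem nt_b2 (i j : Fin N) (hij : i ≠ j) (hi : 2 ≤ a i) (hj : 2 ≤ a j) :
    (a i - 1) * (a j - 1) ≤ e := by
  obtain ⟨m, C, hm, hC, hdm, hle, -⟩ := setup2 a ha d e hd hc hdvd hE i j hij
  obtain ⟨p, hp⟩ : ∃ p, a i = p + 2 := ⟨a i - 2, by omega⟩
  obtain ⟨q, hq⟩ : ∃ q, a j = q + 2 := ⟨a j - 2, by omega⟩
  rw [hp, hq] at hdm hle ⊢
  have e1 : p + 2 - 1 = p + 1 := by omega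
  have e2 : q + 2 - 1 = q + 1 := by omega
  rw [e1, e2] at hle ⊢
  have h2 : (p + 2) * (q + 2) * C ≤ d := by
    rw [hdm]; exact Nat.le_mul_of_pos_left _ hm
  obtain ⟨c, hc'⟩ : ∃ c, C = c + 1 := ⟨C - 1, by omega⟩
  rw [hc'] at h2 hle
  nlinarith [Nat.zero_le (p * q * c), Nat.zero_le (p * c), Nat.zero_le (q * c)]

theorem nt_b3 (i j : Fin N) (hij : i ≠ j) (hi : 2 ≤ a i) (hj : 2 ≤ a j) :
    a i * a j + (a i - 1) * (a j - 1) ≤ e ∨ (d = a i * a j ∧ ∀ l, l ≠ i → l ≠ j → a l = 1) := by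
  obtain ⟨m, C, hm, hC, hdm, hle, hlC⟩ := setup2 a ha d e hd hc hdvd hE i j hij
  by_cases hmC : m * C = 1
  · right
    have hC1 : C = 1 := Nat.eq_one_of_mul_eq_one_left hmC
    refine ⟨?_, ?_⟩
    · rw [hdm]
      calc m * (a i * a j * C) = a i * a j * (m * C) := by ring
        _ = a i * a j := by rw [hmC, mul_one]
    · intro l hli hlj
      have h1 := hlC l hli hlj
      have := ha l
      omega
  · left
    have hmC2 : 2 ≤ m * C := by
      have : 1 ≤ m * C := Nat.mul_pos hm hC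
      omega
    obtain ⟨p, hp⟩ : ∃ p, a i = p + 2 := ⟨a i - 2, by omega⟩
    obtain ⟨q, hq⟩ : ∃ q, a j = q + 2 := ⟨a j - 2, by omega⟩
    rw [hp, hq] at hdm hle ⊢
    have e1 : p + 2 - 1 = p + 1 := by omega
    have e2 : q + 2 - 1 = q + 1 := by omega
    rw [e1, e2] at hle ⊢
    have h3 : d = (p + 2) * (q + 2) * (m * C) := by rw [hdm]; ring
    have h2 : C ≤ m * C := Nat.le_mul_of_pos_left C hm
    obtain ⟨c, hc'⟩ : ∃ c, m * C = c + 2 := ⟨m * C - 2, by omega⟩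
    rw [hc'] at h3 h2
    rw [h3] at hle
    nlinarith [Nat.zero_le (p * q * c), Nat.zero_le (p * c), Nat.zero_le (q * c)]

end Pool.Agent.H39R2.Fuj
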