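import Pool.Agent.H39R2.FujMain

/-! Very ampleness of adjoint bundles on weighted hypersurfaces: separation of points. -/

set_option autoImplicit false

namespace Pool.Agent.H39R2.Fuj

open MvPolynomial

variable {N : ℕ} {a : Fin N → ℕ} {d e : ℕ} {f : MvPolynomial (Fin N) ℂ}

/-- two nonzero numbers `α, β` with `α ^ q = β ^ p`, `p, q` coprime, are `t ^ p, t ^ q` -/
theorem exists_root_pair {p q : ℕ} (h : Nat.Coprime p q) {α β : ℂ} (hα : α ≠ 0) (hβ : β ≠ 0)
    (hαβ : α ^ q = β ^ p) : ∃ t : ℂ, t ≠ 0 ∧ t ^ p = α ∧ t ^ q = β := by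
  have hb := Nat.gcd_eq_gcd_ab p q
  rw [h.gcd_eq_one] at hb
  set x := Nat.gcdA p q
  set y := Nat.gcdB p q
  have hαβ' : α ^ (q : ℤ) = β ^ (p : ℤ) := by rw [zpow_natCast, zpow_natCast, hαβ]
  refine ⟨α ^ x * β ^ y, mul_ne_zero (zpow_ne_zero _ hα) (zpow_ne_zero _ hβ), ?_, ?_⟩
  · rw [← zpow_natCast, mul_zpow, ← zpow_mul, ← zpow_mul, mul_comm y, zpow_mul β, ← hαβ',
      ← zpow_mul, ← zpow_add₀ hα]
    have : x * (p : ℤ) + (q : ℤ) * y = 1 := by
      rw [mul_comm x]; exact_mod_cast hb.symm
    rw [this, zpow_one]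
  · rw [← zpow_natCast, mul_zpow, ← zpow_mul, ← zpow_mul, mul_comm x, zpow_mul α, hαβ',
      ← zpow_mul, ← zpow_add₀ hβ]
    have : (p : ℤ) * x + y * (q : ℤ) = 1 := by
      rw [mul_comm y]; exact_mod_cast hb.symm
    rw [this, zpow_one]

variable (S : Setup a d e f)

include S

/-- case of a nonzero coordinate of weight one -/
theorem Setup.ptsA (v w : Fin N → ℂ) (hfv : eval v f = 0) (hfw : eval w f = 0)
    (hvw : ∀ s : MvPolynomial (Fin N) ℂ, IsWeightedHomogeneous a s e → eval w s = eval v s)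
    (i : Fin N) (hi : v i ≠ 0) (hai : a i = 1) :
    ∃ t : ℂ, t ≠ 0 ∧ ∀ l, w l = t ^ a l * v l := by
  have h1 := hvw (X i ^ e) (by have := hom_pow a i e; rwa [hai, mul_one] at this)
  rw [map_pow, map_pow, eval_X, eval_X] at h1
  have hwi : w i ≠ 0 := by
    intro h0
    rw [h0, zero_pow (by have := S.epos; omega)] at h1
    exact pow_ne_zero _ hi h1.symm
  set t := w i / v i with ht
  have ht0 : t ≠ 0 := div_ne_zero hwi hi
  have hte : t ^ e = 1 := by
    rw [ht, div_pow, h1, div_self (pow_ne_zero _ hi)]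
  have hti : t * v i = w i := by rw [ht, div_mul_cancel₀ _ hi]
  set v' : Fin N → ℂ := fun l => t ^ a l * v l with hv'
  have hv'i : v' i = w i := by rw [hv']; simp only; rw [hai, pow_one, hti]
  have hv's : ∀ s : MvPolynomial (Fin N) ℂ, IsWeightedHomogeneous a s e →
      eval w s = eval v' s := by
    intro s hs
    rw [hvw s hs, hv', eval_scale a v t hs, hte, one_mul]
  have hlow : ∀ l, a l ≤ e → w l = v' l := by
    intro l hl
    have h2 := hv's (X l * X i ^ (e - a l)) (by
      have := hom_one a i l (e - a l)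
      rwa [hai, mul_one, Nat.add_sub_cancel' hl] at this)
    rw [map_mul, map_mul, map_pow, map_pow, eval_X, eval_X, eval_X, eval_X, hv'i] at h2
    exact mul_right_cancel₀ (pow_ne_zero _ hwi) h2
  refine ⟨t, ht0, ?_⟩
  intro l
  show w l = v' l
  by_cases hl : a l ≤ e
  · exact hlow l hl
  · rcases nt_a a S.ha d e S.hd S.cop S.dvd S.hE l with h | ⟨hdl, hone⟩
    · exact absurd h hl
    have he := S.epos
    have hl2 : 2 ≤ a l := by omega
    obtain ⟨c, g, hc, hfg, hg⟩ := S.lin l hdl hl2 hone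
    have hother : ∀ j, j ≠ l → w j = v' j := fun j hj => hlow j (by rw [hone j hj]; exact he)
    have hge : eval w g = eval v' g := by
      rw [eval_eq', eval_eq']
      refine Finset.sum_congr rfl (fun m hm => ?_)
      congr 1
      refine Finset.prod_congr rfl (fun j _ => ?_)
      by_cases hj : j = l
      · subst hj; rw [hg m hm, pow_zero, pow_zero]
      · rw [hother j hj]
    have hfv' : eval v' f = 0 := by rw [hv', eval_scale a v t S.hf, hfv, mul_zero]
    rw [hfg, map_add, map_mul, eval_C, eval_X] at hfw hfv'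
    rw [hge] at hfw
    have h3 : c * w l = c * v' l := by linear_combination hfw - hfv'
    exact mul_left_cancel₀ hc h3

/-- the main case with two coordinates of weight at least two -/
theorem Setup.ptsB (v w : Fin N → ℂ) (hw : w ≠ 0) (hfv : eval v f = 0) (hfw : eval w f = 0)
    (hvw : ∀ s : MvPolynomial (Fin N) ℂ, IsWeightedHomogeneous a s e → eval w s = eval v s)
    (hA : ∀ i, v i ≠ 0 → a i ≠ 1) (i j : Fin N) (hij : i ≠ j) (hi : v i ≠ 0) (hj : v j ≠ 0)
    (hai : 2 ≤ a i) (haj : 2 ≤ a j) :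
    ∃ t : ℂ, t ≠ 0 ∧ ∀ l, w l = t ^ a l * v l := by
  have he := S.epos
  have hcop := S.cop i j hij
  -- coordinates of weight one vanish
  have hv1 : ∀ l, a l = 1 → v l = 0 := by
    intro l hl
    by_contra h
    exact hA l h hl
  have hw1 : ∀ l, a l = 1 → w l = 0 := by
    intro l hl
    have h1 := hvw (X l ^ e) (by have := hom_pow a l e; rwa [hl, mul_one] at this)
    rw [map_pow, map_pow, eval_X, eval_X, hv1 l hl, zero_pow (by omega)] at h1
    exact pow_eq_zero_iff (by omega) |>.mp h1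
  -- the ratio
  have hratio : w i ≠ 0 ∧ w j ≠ 0 ∧ (w i / v i) ^ a j = (w j / v j) ^ a i := by
    rcases nt_b3 a S.ha d e S.hd S.cop S.dvd S.hE i j hij hai haj with hB | ⟨hdij, hone⟩
    · obtain ⟨x, y, hxy⟩ := rep hcop (t := e - a i * a j) (by omega)
      have h1 := hvw (X i ^ (x + a j) * X j ^ y) (by
        have := hom_two a i j (x + a j) y
        rwa [show (x + a j) * a i + y * a j = e by
          have h0 : a i * x + a j * y + a i * a j = e := by omega
          rw [← h0]; ring] at this)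
      have h2 := hvw (X i ^ x * X j ^ (y + a i)) (by
        have := hom_two a i j x (y + a i)
        rwa [show x * a i + (y + a i) * a j = e by
          have h0 : a i * x + a j * y + a i * a j = e := by omega
          rw [← h0]; ring] at this)
      simp only [map_mul, map_pow, eval_X] at h1 h2
      have h1' : w i ^ (x + a j) * w j ^ y ≠ 0 := by
        rw [h1]; exact mul_ne_zero (pow_ne_zero _ hi) (pow_ne_zero _ hj)
      have h2' : w i ^ x * w j ^ (y + a i) ≠ 0 := by
        rw [h2]; exact mul_ne_zero (pow_ne_zero _ hi) (pow_ne_zero _ hj)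
      have hwi : w i ≠ 0 := by
        intro h0
        apply h1'
        rw [h0, zero_pow (by omega), zero_mul]
      have hwj : w j ≠ 0 := by
        intro h0
        apply h2'
        rw [h0, zero_pow (by omega), mul_zero]
      refine ⟨hwi, hwj, ?_⟩
      rw [div_pow, div_pow, div_eq_div_iff (pow_ne_zero _ hi) (pow_ne_zero _ hj)]
      have hz : w i ^ x * w j ^ y * (v i ^ x * v j ^ y) ≠ 0 :=
        mul_ne_zero (mul_ne_zero (pow_ne_zero _ hwi) (pow_ne_zero _ hwj))
          (mul_ne_zero (pow_ne_zero _ hi) (pow_ne_zero _ hj))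
      apply mul_left_cancel₀ hz
      rw [pow_add] at h1 h2
      calc w i ^ x * w j ^ y * (v i ^ x * v j ^ y) * (w i ^ a j * v j ^ a i)
          = (w i ^ x * w i ^ a j * w j ^ y) * (v i ^ x * (v j ^ y * v j ^ a i)) := by ring
        _ = (v i ^ x * v i ^ a j * v j ^ y) * (w i ^ x * (w j ^ y * w j ^ a i)) := by
            rw [h1, h2]; ring
        _ = w i ^ x * w j ^ y * (v i ^ x * v j ^ y) * (w j ^ a i * v i ^ a j) := by ring
    · obtain ⟨c, c', g, hc, hc', hfg, hg⟩ := S.bin i j hij hdij hai haj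
      have hgv := (dd_span v v {l | l ≠ i ∧ l ≠ j} (fun l hl => hv1 l (hone l hl.1 hl.2)) g hg).1
      have hgw := (dd_span w w {l | l ≠ i ∧ l ≠ j} (fun l hl => hw1 l (hone l hl.1 hl.2)) g hg).1
      rw [hfg] at hfv hfw
      simp only [map_add, map_mul, map_pow, eval_X, eval_C, hgv, hgw, add_zero] at hfv hfw
      have hwi : w i ≠ 0 := by
        intro h0
        rw [h0, zero_pow (by omega), mul_zero, zero_add] at hfw
        have hwj : w j = 0 := by
          rcases mul_eq_zero.mp hfw with h | h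
          · exact absurd h hc'
          · exact pow_eq_zero_iff (by omega) |>.mp h
        apply hw
        funext l
        by_cases hl : l = i
        · rw [hl]; exact h0
        by_cases hl2 : l = j
        · rw [hl2]; exact hwj
        · exact hw1 l (hone l hl hl2)
      have hwj : w j ≠ 0 := by
        intro h0
        rw [h0, zero_pow (by omega), mul_zero, add_zero] at hfw
        rcases mul_eq_zero.mp hfw with h | h
        · exact absurd h hc
        · exact hwi (pow_eq_zero_iff (by omega) |>.mp h)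
      refine ⟨hwi, hwj, ?_⟩
      rw [div_pow, div_pow, div_eq_div_iff (pow_ne_zero _ hi) (pow_ne_zero _ hj)]
      apply mul_left_cancel₀ hc
      linear_combination v j ^ a i * hfw - w j ^ a i * hfv
  obtain ⟨hwi, hwj, hrat⟩ := hratio
  obtain ⟨t, ht0, hti, htj⟩ := exists_root_pair hcop (div_ne_zero hwi hi) (div_ne_zero hwj hj) hrat
  set v' : Fin N → ℂ := fun l => t ^ a l * v l with hv'
  have hv'i : v' i = w i := by rw [hv']; simp only; rw [hti, div_mul_cancel₀ _ hi]
  have hv'j : v' j = w j := by rw [hv']; simp only; rw [htj, div_mul_cancel₀ _ hj]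
  refine ⟨t, ht0, ?_⟩
  -- `t ^ e = 1`
  obtain ⟨x, y, hxy⟩ := rep hcop (nt_b2 a S.ha d e S.hd S.cop S.dvd S.hE i j hij hai haj)
  have hM := hom_two a i j x y
  rw [show x * a i + y * a j = e by rw [← hxy]; ring] at hM
  have hte : t ^ e = 1 := by
    have h1 := eval_scale a v t hM
    have h2 := hvw _ hM
    rw [← h2] at h1
    have h3 : eval v' (X i ^ x * X j ^ y : MvPolynomial (Fin N) ℂ) =
        eval w (X i ^ x * X j ^ y) := by
      simp only [map_mul, map_pow, eval_X, hv'i, hv'j]
    have h4 : eval w (X i ^ x * X j ^ y : MvPolynomial (Fin N) ℂ) ≠ 0 := by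
      simp only [map_mul, map_pow, eval_X]
      exact mul_ne_zero (pow_ne_zero _ hwi) (pow_ne_zero _ hwj)
    have h5 : t ^ e * eval w (X i ^ x * X j ^ y : MvPolynomial (Fin N) ℂ) =
        1 * eval w (X i ^ x * X j ^ y : MvPolynomial (Fin N) ℂ) := by
      rw [one_mul, ← h1]; exact h3
    exact mul_right_cancel₀ h4 h5
  intro l
  show w l = v' l
  by_cases hli : l = i
  · rw [hli]; exact hv'i.symm
  by_cases hlj : l = j
  · rw [hlj]; exact hv'j.symm
  have hb1 := nt_b1 a S.ha d e S.hd S.cop S.dvd S.hE i j hij hai haj l hli hlj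
  obtain ⟨x, y, hxy⟩ := rep hcop (t := e - a l) (by omega)
  have hL := hom_three a i j l x y
  rw [show a l + (x * a i + y * a j) = e by
    have h0 : a i * x + a j * y + a l = e := by omega
    rw [← h0]; ring] at hL
  have h1 := hvw _ hL
  have h2 := eval_scale a v t hL
  rw [hte, one_mul, ← h1] at h2
  have h3 : eval v' (X l * (X i ^ x * X j ^ y) : MvPolynomial (Fin N) ℂ) =
      eval w (X l * (X i ^ x * X j ^ y)) := h2
  simp only [map_mul, map_pow, eval_X, hv'i, hv'j] at h3
  exact (mul_right_cancel₀ (mul_ne_zero (pow_ne_zero _ hwi) (pow_ne_zero _ hwj)) h3).symm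

theorem Setup.pts (v w : Fin N → ℂ) (hv : v ≠ 0) (hw : w ≠ 0) (hfv : eval v f = 0)
    (hfw : eval w f = 0)
    (h : ∀ s : MvPolynomial (Fin N) ℂ, IsWeightedHomogeneous a s e → eval v s = 0 →
      eval w s = 0) :
    ∃ t : ℂ, t ≠ 0 ∧ ∀ l, w l = t ^ a l * v l := by
  obtain ⟨s₀, hs₀, hs₀v⟩ := S.bpf v hv hfv
  set lam := eval w s₀ / eval v s₀ with hlam
  have h1 : ∀ s : MvPolynomial (Fin N) ℂ, IsWeightedHomogeneous a s e →
      eval w s = lam * eval v s := by
    intro s hs
    have h2 := h (C (eval v s₀) * s - C (eval v s) * s₀) (by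
      apply Submodule.sub_mem (weightedHomogeneousSubmodule ℂ a e)
      · rw [← smul_eq_C_mul]
        exact Submodule.smul_mem (weightedHomogeneousSubmodule ℂ a e) _ hs
      · rw [← smul_eq_C_mul]
        exact Submodule.smul_mem (weightedHomogeneousSubmodule ℂ a e) _ hs₀) (by
      simp only [map_sub, map_mul, eval_C]; ring)
    simp only [map_sub, map_mul, eval_C] at h2
    rw [hlam, div_mul_eq_mul_div, eq_div_iff hs₀v]
    linear_combination h2
  have hlam0 : lam ≠ 0 := by
    intro h0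
    obtain ⟨s₁, hs₁, hs₁w⟩ := S.bpf w hw hfw
    rw [h1 s₁ hs₁, h0, zero_mul] at hs₁w
    exact hs₁w rfl
  obtain ⟨r, hr⟩ := IsAlgClosed.exists_pow_nat_eq lam S.epos
  have hr0 : r ≠ 0 := by
    rintro rfl
    rw [zero_pow (by have := S.epos; omega)] at hr
    exact hlam0 hr.symm
  set v' : Fin N → ℂ := fun l => r ^ a l * v l with hv'
  have hfv' : eval v' f = 0 := by rw [hv', eval_scale a v r S.hf, hfv, mul_zero]
  have hv'0 : v' ≠ 0 := by
    intro h0
    apply hv
    funext l
    have h2 := congrFun h0 l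
    rw [hv'] at h2
    simp only [Pi.zero_apply] at h2
    rcases mul_eq_zero.mp h2 with h3 | h3
    · exact absurd h3 (pow_ne_zero _ hr0)
    · exact h3
  have hv'w : ∀ s : MvPolynomial (Fin N) ℂ, IsWeightedHomogeneous a s e →
      eval w s = eval v' s := by
    intro s hs
    rw [h1 s hs, hv', eval_scale a v r hs, hr]
  have main : ∃ t : ℂ, t ≠ 0 ∧ ∀ l, w l = t ^ a l * v' l := by
    by_cases hA : ∃ i, v' i ≠ 0 ∧ a i = 1
    · obtain ⟨i, hi, hai⟩ := hA
      exact S.ptsA v' w hfv' hfw hv'w i hi hai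
    · push Not at hA
      obtain ⟨i, j, hij, hi, hj, hai, haj⟩ := S.two v' hv'0 hfv' hA
      exact S.ptsB v' w hw hfv' hfw hv'w hA i j hij hi hj hai haj
  obtain ⟨t, ht, htl⟩ := main
  refine ⟨t * r, mul_ne_zero ht hr0, ?_⟩
  intro l
  rw [htl l, hv', mul_pow]
  ring

end Pool.Agent.H39R2.Fuj
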