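import Pool.Agent.H39R2.FujPts

/-! Very ampleness of adjoint bundles on weighted hypersurfaces: separation of tangent vectors. -/

set_option autoImplicit false

namespace Pool.Agent.H39R2.Fuj

open MvPolynomial

variable {N : ℕ} {a : Fin N → ℕ} {d e : ℕ} {f : MvPolynomial (Fin N) ℂ}

/-- if `dd v u s = κ * s(v)` and `s(v) ≠ 0` for a power of a coordinate -/
theorem dd_two (v u : Fin N → ℂ) (i j : Fin N) (hi : v i ≠ 0) (hj : v j ≠ 0) (x y : ℕ) :
    dd v u (X i ^ x * X j ^ y) = (x * (u i / v i) + y * (u j / v j)) * (v i ^ x * v j ^ y) := by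
  rw [dd_mul, dd_pow, dd_pow, dd_X, dd_X]
  simp only [map_pow, eval_X]
  have h1 : ∀ (z : ℂ), z ≠ 0 → ∀ n : ℕ, (n : ℂ) * z ^ (n - 1) = n * z ^ n / z := by
    intro z hz n
    rcases Nat.eq_zero_or_pos n with h | h
    · subst h; simp
    · obtain ⟨m, rfl⟩ : ∃ m, n = m + 1 := ⟨n - 1, by omega⟩
      rw [Nat.add_sub_cancel, pow_succ]
      field_simp
  rw [h1 _ hi x, h1 _ hj y]
  field_simp
  ring

variable (S : Setup a d e f)

include S

theorem Setup.tanA (v u : Fin N → ℂ) (hfv : eval v f = 0) (hfu : dd v u f = 0) (κ : ℂ)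
    (hκ : ∀ s : MvPolynomial (Fin N) ℂ, IsWeightedHomogeneous a s e → dd v u s = κ * eval v s)
    (i : Fin N) (hi : v i ≠ 0) (hai : a i = 1) :
    ∃ τ : ℂ, ∀ l, u l = τ * (a l * v l) := by
  set τ := u i / v i with hτ
  have he := S.epos
  set u' : Fin N → ℂ := fun l => u l - τ * (a l * v l) with hu'
  have hu'i : u' i = 0 := by
    rw [hu']; simp only
    rw [hai, Nat.cast_one, one_mul, hτ, div_mul_cancel₀ _ hi, sub_self]
  have hdd : ∀ (s : MvPolynomial (Fin N) ℂ) (n : ℕ), IsWeightedHomogeneous a s n →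
      dd v u' s = dd v u s - τ * (n * eval v s) := by
    intro s n hs
    rw [hu', dd_sub_dir, dd_smul_dir, dd_euler a v hs]
  have hκe : κ = τ * e := by
    have hM : IsWeightedHomogeneous a (X i ^ e : MvPolynomial (Fin N) ℂ) e := by
      have := hom_pow a i e; rwa [hai, mul_one] at this
    have h1 := hdd _ _ hM
    rw [hκ _ hM, dd_pow, dd_X, hu'i, mul_zero] at h1
    rw [map_pow, eval_X] at h1
    have h2 : (κ - τ * e) * v i ^ e = 0 := by linear_combination -h1
    rcases mul_eq_zero.mp h2 with h3 | h3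
    · linear_combination h3
    · exact absurd h3 (pow_ne_zero _ hi)
  have hzero : ∀ s : MvPolynomial (Fin N) ℂ, IsWeightedHomogeneous a s e → dd v u' s = 0 := by
    intro s hs
    rw [hdd s e hs, hκ s hs, hκe]; ring
  have hlow : ∀ l, a l ≤ e → u' l = 0 := by
    intro l hl
    have h2 := hzero (X l * X i ^ (e - a l)) (by
      have := hom_one a i l (e - a l)
      rwa [hai, mul_one, Nat.add_sub_cancel' hl] at this)
    rw [dd_mul, dd_pow, dd_X, dd_X, hu'i, map_pow, eval_X, eval_X] at h2
    have h3 : v i ^ (e - a l) * u' l = 0 := by linear_combination h2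
    rcases mul_eq_zero.mp h3 with h4 | h4
    · exact absurd h4 (pow_ne_zero _ hi)
    · exact h4
  refine ⟨τ, ?_⟩
  intro l
  suffices h : u' l = 0 by
    rw [hu'] at h
    simp only at h
    linear_combination h
  by_cases hl : a l ≤ e
  · exact hlow l hl
  · rcases nt_a a S.ha d e S.hd S.cop S.dvd S.hE l with h | ⟨hdl, hone⟩
    · exact absurd h hl
    have hl2 : 2 ≤ a l := by omega
    obtain ⟨c, g, hc, hfg, hg⟩ := S.lin l hdl hl2 hone
    have hother : ∀ j, j ≠ l → u' j = 0 := fun j hj => hlow j (by rw [hone j hj]; exact he)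
    have hge : dd v u' g = 0 := by
      rw [dd]
      apply Finset.sum_eq_zero
      intro j _
      by_cases hj : j = l
      · subst hj
        have h5 : pderiv j g = 0 := by
          apply pderiv_eq_zero_of_notMem_vars
          rw [mem_vars]
          rintro ⟨m, hm, hmj⟩
          exact (Finsupp.mem_support_iff.mp hmj) (hg m hm)
        rw [h5]; simp
      · rw [hother j hj, mul_zero]
    have hfu' : dd v u' f = 0 := by rw [hdd f d S.hf, hfu, hfv]; ring
    rw [hfg, dd_add, dd_smul, dd_X, hge, add_zero] at hfu'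
    rcases mul_eq_zero.mp hfu' with h6 | h6
    · exact absurd h6 hc
    · exact h6

theorem Setup.tanB (v u : Fin N → ℂ) (hfv : eval v f = 0) (hfu : dd v u f = 0) (κ : ℂ)
    (hκ : ∀ s : MvPolynomial (Fin N) ℂ, IsWeightedHomogeneous a s e → dd v u s = κ * eval v s)
    (hA : ∀ i, v i ≠ 0 → a i ≠ 1) (i j : Fin N) (hij : i ≠ j) (hi : v i ≠ 0) (hj : v j ≠ 0)
    (hai : 2 ≤ a i) (haj : 2 ≤ a j) :
    ∃ τ : ℂ, ∀ l, u l = τ * (a l * v l) := by
  have he := S.epos
  have hcop := S.cop i j hij
  have hv1 : ∀ l, a l = 1 → v l = 0 := by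
    intro l hl
    by_contra h
    exact hA l h hl
  have hai0 : (a i : ℂ) ≠ 0 := by exact_mod_cast (S.ha i).ne'
  have haj0 : (a j : ℂ) ≠ 0 := by exact_mod_cast (S.ha j).ne'
  have hratio : (a j : ℂ) * (u i / v i) = a i * (u j / v j) := by
    rcases nt_b3 a S.ha d e S.hd S.cop S.dvd S.hE i j hij hai haj with hB | ⟨hdij, hone⟩
    · obtain ⟨x, y, hxy⟩ := rep hcop (t := e - a i * a j) (by omega)
      have h1 := hκ (X i ^ (x + a j) * X j ^ y) (by
        have := hom_two a i j (x + a j) y
        rwa [show (x + a j) * a i + y * a j = e by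
          have h0 : a i * x + a j * y + a i * a j = e := by omega
          rw [← h0]; ring] at this)
      have h2 := hκ (X i ^ x * X j ^ (y + a i)) (by
        have := hom_two a i j x (y + a i)
        rwa [show x * a i + (y + a i) * a j = e by
          have h0 : a i * x + a j * y + a i * a j = e := by omega
          rw [← h0]; ring] at this)
      rw [dd_two v u i j hi hj] at h1 h2
      simp only [map_mul, map_pow, eval_X] at h1 h2
      have h3 := mul_right_cancel₀ (mul_ne_zero (pow_ne_zero _ hi) (pow_ne_zero _ hj)) h1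
      have h4 := mul_right_cancel₀ (mul_ne_zero (pow_ne_zero _ hi) (pow_ne_zero _ hj)) h2
      push_cast at h3 h4
      linear_combination h3 - h4
    · obtain ⟨c, c', g, hc, hc', hfg, hg⟩ := S.bin i j hij hdij hai haj
      -- weight one components of `u` vanish
      have hu1 : ∀ l, l ≠ i → l ≠ j → u l = 0 := by
        intro l hli hlj
        have hb1 := nt_b1 a S.ha d e S.hd S.cop S.dvd S.hE i j hij hai haj l hli hlj
        obtain ⟨x, y, hxy⟩ := rep hcop (t := e - a l) (by omega)
        have h1 := hκ (X l * (X i ^ x * X j ^ y)) (by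
          have := hom_three a i j l x y
          rwa [show a l + (x * a i + y * a j) = e by
            have h0 : a i * x + a j * y + a l = e := by omega
            rw [← h0]; ring] at this)
        rw [dd_mul, dd_X] at h1
        simp only [map_mul, map_pow, eval_X, hv1 l (hone l hli hlj), zero_mul, mul_zero,
          zero_add] at h1
        rcases mul_eq_zero.mp h1 with h2 | h2
        · exact absurd h2 (mul_ne_zero (pow_ne_zero _ hi) (pow_ne_zero _ hj))
        · exact h2
      obtain ⟨hgv, hgu⟩ := dd_span v u {l | l ≠ i ∧ l ≠ j}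
        (fun l hl => hv1 l (hone l hl.1 hl.2)) g hg
      have hgu' := hgu (fun l hl => hu1 l hl.1 hl.2)
      rw [hfg] at hfv hfu
      simp only [map_add, map_mul, map_pow, eval_X, eval_C, hgv, add_zero] at hfv
      rw [dd_add, dd_add, hgu', add_zero, dd_smul, dd_smul] at hfu
      have h1 : dd v u (X i ^ a j) = (a j : ℂ) * (u i / v i) * v i ^ a j := by
        have := dd_two v u i j hi hj (a j) 0
        simpa using this
      have h2 : dd v u (X j ^ a i) = (a i : ℂ) * (u j / v j) * v j ^ a i := by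
        have := dd_two v u i j hi hj 0 (a i)
        simpa using this
      rw [h1, h2] at hfu
      have h3 : c * v i ^ a j * ((a j : ℂ) * (u i / v i) - a i * (u j / v j)) = 0 := by
        linear_combination hfu - (a i : ℂ) * (u j / v j) * hfv
      rcases mul_eq_zero.mp h3 with h4 | h4
      · exact absurd h4 (mul_ne_zero hc (pow_ne_zero _ hi))
      · linear_combination h4
  set τ := u i / (a i * v i) with hτ
  have hui : u i = τ * (a i * v i) := by
    rw [hτ, div_mul_cancel₀ _ (mul_ne_zero hai0 hi)]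
  have huj : u j = τ * (a j * v j) := by
    have h1 : u i / v i = τ * a i := by rw [hui]; field_simp
    rw [h1] at hratio
    have h2 : u j / v j = τ * a j := by
      apply mul_left_cancel₀ hai0
      rw [← hratio]; ring
    rw [div_eq_iff hj] at h2
    rw [h2]; ring
  set u' : Fin N → ℂ := fun l => u l - τ * (a l * v l) with hu'
  have hu'i : u' i = 0 := by rw [hu']; simp only; rw [← hui, sub_self]
  have hu'j : u' j = 0 := by rw [hu']; simp only; rw [← huj, sub_self]
  have hdd : ∀ (s : MvPolynomial (Fin N) ℂ) (n : ℕ), IsWeightedHomogeneous a s n →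
      dd v u' s = dd v u s - τ * (n * eval v s) := by
    intro s n hs
    rw [hu', dd_sub_dir, dd_smul_dir, dd_euler a v hs]
  have hκe : κ = τ * e := by
    obtain ⟨x, y, hxy⟩ := rep hcop (nt_b2 a S.ha d e S.hd S.cop S.dvd S.hE i j hij hai haj)
    have hM := hom_two a i j x y
    rw [show x * a i + y * a j = e by rw [← hxy]; ring] at hM
    have h1 := hdd _ _ hM
    rw [hκ _ hM, dd_two v u' i j hi hj, hu'i, hu'j] at h1
    simp only [map_mul, map_pow, eval_X, zero_div, mul_zero, add_zero, zero_mul] at h1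
    have h2 : (κ - τ * e) * (v i ^ x * v j ^ y) = 0 := by linear_combination -h1
    rcases mul_eq_zero.mp h2 with h3 | h3
    · linear_combination h3
    · exact absurd h3 (mul_ne_zero (pow_ne_zero _ hi) (pow_ne_zero _ hj))
  refine ⟨τ, ?_⟩
  intro l
  suffices h : u' l = 0 by
    rw [hu'] at h
    simp only at h
    linear_combination h
  by_cases hli : l = i
  · rw [hli]; exact hu'i
  by_cases hlj : l = j
  · rw [hlj]; exact hu'j
  have hb1 := nt_b1 a S.ha d e S.hd S.cop S.dvd S.hE i j hij hai haj l hli hlj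
  obtain ⟨x, y, hxy⟩ := rep hcop (t := e - a l) (by omega)
  have hL := hom_three a i j l x y
  rw [show a l + (x * a i + y * a j) = e by
    have h0 : a i * x + a j * y + a l = e := by omega
    rw [← h0]; ring] at hL
  have h1 := hdd _ _ hL
  rw [hκ _ hL, hκe, dd_mul, dd_two v u' i j hi hj, hu'i, hu'j, dd_X] at h1
  simp only [map_mul, map_pow, eval_X, zero_div, mul_zero, add_zero, zero_mul, zero_add] at h1
  have h2 : v i ^ x * v j ^ y * u' l = 0 := by linear_combination h1
  rcases mul_eq_zero.mp h2 with h3 | h3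
  · exact absurd h3 (mul_ne_zero (pow_ne_zero _ hi) (pow_ne_zero _ hj))
  · exact h3

theorem Setup.tan (v u : Fin N → ℂ) (hv : v ≠ 0) (hfv : eval v f = 0) (hfu : dd v u f = 0)
    (h : ∀ s : MvPolynomial (Fin N) ℂ, IsWeightedHomogeneous a s e → eval v s = 0 →
      dd v u s = 0) :
    ∃ τ : ℂ, ∀ l, u l = τ * (a l * v l) := by
  obtain ⟨s₀, hs₀, hs₀v⟩ := S.bpf v hv hfv
  have hκ : ∀ s : MvPolynomial (Fin N) ℂ, IsWeightedHomogeneous a s e →
      dd v u s = dd v u s₀ / eval v s₀ * eval v s := by
    intro s hs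
    have h2 := h (C (eval v s₀) * s - C (eval v s) * s₀) (by
      apply Submodule.sub_mem (weightedHomogeneousSubmodule ℂ a e)
      · rw [← smul_eq_C_mul]
        exact Submodule.smul_mem (weightedHomogeneousSubmodule ℂ a e) _ hs
      · rw [← smul_eq_C_mul]
        exact Submodule.smul_mem (weightedHomogeneousSubmodule ℂ a e) _ hs₀) (by
      simp only [map_sub, map_mul, eval_C]; ring)
    rw [dd_sub, dd_smul, dd_smul] at h2
    rw [div_mul_eq_mul_div, eq_div_iff hs₀v]
    linear_combination h2
  by_cases hA : ∃ i, v i ≠ 0 ∧ a i = 1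
  · obtain ⟨i, hi, hai⟩ := hA
    exact S.tanA v u hfv hfu _ hκ i hi hai
  · push Not at hA
    obtain ⟨i, j, hij, hi, hj, hai, haj⟩ := S.two v hv hfv hA
    exact S.tanB v u hfv hfu _ hκ hA i j hij hi hj hai haj

end Pool.Agent.H39R2.Fuj
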